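import Pool.Agent.H52.MG.Basic
import Pool.Agent.H52.MG.Targets

/-!
# Module HEN of the MG project: redundant rigidity
-/

set_option autoImplicit false
set_option linter.unusedSectionVars false

noncomputable section

open Classical Module
open scoped Matrix Topology
open Pool.Agent.H52.MG

namespace Pool.Agent.H70.MG

section
variable {V : Type} [Fintype V]

lemma infMot_mono {H H' : SimpleGraph V} (h : H ≤ H') (p : V → Vec) :
    infMot H' p ≤ infMot H p := fun _ hm u w e => hm u w (h e)

lemma mem_infMot_addE {H : SimpleGraph V} {a b : V} {p m : V → Vec} :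
    m ∈ infMot (addE H a b) p ↔ m ∈ infMot H p ∧ (m a - m b) ⬝ᵥ (p a - p b) = 0 := by
  constructor
  · intro h
    refine ⟨fun u w e => h u w (Or.inl e), ?_⟩
    by_cases hab : a = b
    · subst hab; simp
    · exact h a b (Or.inr ⟨hab, Or.inl ⟨rfl, rfl⟩⟩)
  · rintro ⟨h1, h2⟩ u w (e | ⟨-, ⟨rfl, rfl⟩ | ⟨rfl, rfl⟩⟩)
    · exact h1 u w e
    · exact h2
    · rw [← neg_sub (m w) (m u), ← neg_sub (p w) (p u), neg_dotProduct_neg]
      exact h2

/-- the functional of a bar -/
def barF (p : V → Vec) (a b : V) : (V → Vec) →ₗ[ℝ] ℝ where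
  toFun m := (m a - m b) ⬝ᵥ (p a - p b)
  map_add' := by
    intro x y
    have : (x + y) a - (x + y) b = (x a - x b) + (y a - y b) := by
      simp only [Pi.add_apply]; abel
    rw [this, add_dotProduct]
  map_smul' := by
    intro r x
    have : (r • x) a - (r • x) b = r • (x a - x b) := by
      simp only [Pi.smul_apply, smul_sub]
    rw [this, smul_dotProduct]; rfl

lemma finrank_addE (H : SimpleGraph V) (p : V → Vec) (a b : V) :
    finrank ℝ (infMot H p) ≤ finrank ℝ (infMot (addE H a b) p) + 1 := by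
  have h1 : infMot (addE H a b) p = infMot H p ⊓ LinearMap.ker (barF p a b) := by
    ext m
    rw [mem_infMot_addE, Submodule.mem_inf, LinearMap.mem_ker]
    rfl
  have h2 := Submodule.finrank_sup_add_finrank_inf_eq (infMot H p) (LinearMap.ker (barF p a b))
  have h3 := LinearMap.finrank_range_add_finrank_ker (barF p a b)
  have h4 : finrank ℝ (LinearMap.range (barF p a b)) ≤ 1 := by
    calc _ ≤ finrank ℝ ℝ := Submodule.finrank_le _
      _ = 1 := finrank_self ℝ
  have h5 : finrank ℝ ↥(infMot H p ⊔ LinearMap.ker (barF p a b)) ≤ finrank ℝ (V → Vec) :=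
    Submodule.finrank_le _
  rw [h1]
  omega

lemma scr_bar (S : Scr) (x y : Vec) : (ev S x - ev S y) ⬝ᵥ (x - y) = 0 := by
  rw [ev_sub_ev]
  simp only [dot3, cross_eq, Pi.sub_apply, Matrix.cons_val]
  ring

/-- velocity fields of screws -/
def scrMap (p : V → Vec) : Scr →ₗ[ℝ] (V → Vec) where
  toFun S := fun v => ev S (p v)
  map_add' S T := by funext v; exact ev_add S T (p v)
  map_smul' r S := by funext v; exact ev_smul r S (p v)

lemma scrMap_mem (H : SimpleGraph V) (p : V → Vec) (S : Scr) : scrMap p S ∈ infMot H p :=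
  fun u w _ => scr_bar S (p u) (p w)

lemma top_le (hCLQ : T_CLQ) {p : V → Vec} (hp : Gen p) : finrank ℝ (infMot (⊤ : SimpleGraph V) p) ≤ 6 := by
  have h : infMot (⊤ : SimpleGraph V) p ≤ LinearMap.range (scrMap p) := by
    intro m hm
    obtain ⟨S, hS⟩ := hCLQ V p hp Set.univ m (fun u _ w _ => by
      by_cases e : u = w
      · subst e; simp
      · exact hm u w e)
    exact ⟨S, funext fun v => (hS v (Set.mem_univ v)).symm⟩
  calc _ ≤ finrank ℝ (LinearMap.range (scrMap p)) := Submodule.finrank_mono h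
    _ ≤ finrank ℝ Scr := LinearMap.finrank_range_le _
    _ = 6 := finrank_scr

lemma exists_seven {H' : SimpleGraph V} {p : V → Vec} (h7 : 7 ≤ finrank ℝ (infMot H' p))
    (htop : finrank ℝ (infMot (⊤ : SimpleGraph V) p) ≤ 6) :
    ∃ H1 : SimpleGraph V, H' ≤ H1 ∧ finrank ℝ (infMot H1 p) = 7 := by
  have hfin : ({H1 : SimpleGraph V | H' ≤ H1 ∧ 7 ≤ finrank ℝ (infMot H1 p)}).Finite :=
    Set.toFinite _
  obtain ⟨H1, hH1⟩ := hfin.exists_maximal ⟨H', le_rfl, h7⟩
  obtain ⟨⟨hle, h71⟩, hmax⟩ := hH1
  refine ⟨H1, hle, ?_⟩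
  by_contra hne
  have h8 : 8 ≤ finrank ℝ (infMot H1 p) := by omega
  have hnt : H1 ≠ ⊤ := by
    rintro rfl
    omega
  obtain ⟨a, b, hab, hnadj⟩ : ∃ a b, a ≠ b ∧ ¬ H1.Adj a b := by
    by_contra hc
    push Not at hc
    apply hnt
    ext a b
    rw [SimpleGraph.top_adj]
    exact ⟨fun h => h.ne, hc a b⟩
  have hle2 : H1 ≤ addE H1 a b := fun u w e => Or.inl e
  have := hmax (y := addE H1 a b) ⟨hle.trans hle2, by
    have := finrank_addE H1 p a b
    omega⟩ hle2
  exact hnadj (this (Or.inr ⟨hab, Or.inl ⟨rfl, rfl⟩⟩))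

lemma conn_delE {H : SimpleGraph V} (hc : Conn4 H) (h5 : 5 ≤ Fintype.card V) {u w : V}
    (huw : u ≠ w) : (delE H u w).Connected := by
  have : Nonempty V := ⟨u⟩
  rw [SimpleGraph.connected_iff]
  refine ⟨fun a b => ?_, this⟩
  by_contra hab
  set A : Set V := {v | (delE H u w).Reachable a v} with hA
  set B : Set V := {v | ¬ (delE H u w).Reachable a v} with hB
  have key : ∀ s, (s = u ∨ s = w) → (A \ {s}).Nonempty → (B \ {s}).Nonempty → False := by
    intro s hs hA1 hB1
    obtain ⟨x, hx, y, hy, hxy⟩ := hc {s} (A \ {s}) (B \ {s})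
      (by
        intro v
        by_cases h1 : v = s
        · left; exact h1
        · right
          by_cases h2 : (delE H u w).Reachable a v
          · left; exact ⟨h2, h1⟩
          · right; exact ⟨h2, h1⟩)
      (by
        rw [Set.disjoint_left]
        intro v h1 h2
        exact h2.1 h1.1)
      (by
        rw [Set.disjoint_left]
        intro v h1 h2
        exact h2.2 h1)
      (by
        rw [Set.disjoint_left]
        intro v h1 h2
        exact h2.2 h1) hA1 hB1 (by rw [Set.ncard_singleton]; omega)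
    apply hy.1
    have hxy' : (delE H u w).Adj x y := by
      refine ⟨hxy, ?_, ?_⟩
      · rintro ⟨rfl, rfl⟩
        rcases hs with rfl | rfl
        · exact hx.2 rfl
        · exact hy.2 rfl
      · rintro ⟨rfl, rfl⟩
        rcases hs with rfl | rfl
        · exact hy.2 rfl
        · exact hx.2 rfl
    exact hx.1.trans hxy'.reachable
  -- one of the two works
  have hcases : ∀ s, (s = u ∨ s = w) → A = {s} ∨ B = {s} := by
    intro s hs
    by_contra hcon
    push Not at hcon
    have haA : a ∈ A := SimpleGraph.Reachable.refl a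
    have hbB : b ∈ B := hab
    apply key s hs
    · by_contra he
      rw [Set.not_nonempty_iff_eq_empty, Set.sdiff_eq_empty] at he
      apply hcon.1
      exact Set.Subset.antisymm he (by
        intro z hz
        have h1 := he haA
        rw [Set.mem_singleton_iff] at h1 hz
        rw [hz, ← h1]; exact haA)
    · by_contra he
      rw [Set.not_nonempty_iff_eq_empty, Set.sdiff_eq_empty] at he
      apply hcon.2
      exact Set.Subset.antisymm he (by
        intro z hz
        have h1 := he hbB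
        rw [Set.mem_singleton_iff] at h1 hz
        rw [hz, ← h1]; exact hbB)
  have hcov : ∀ v, v ∈ A ∨ v ∈ B := fun v => Classical.em _
  have hsmall : ∀ v, v = u ∨ v = w := by
    intro v
    rcases hcases u (Or.inl rfl) with h1 | h1 <;> rcases hcases w (Or.inr rfl) with h2 | h2
    · exfalso
      rw [h1] at h2
      exact huw (Set.singleton_injective h2)
    · rcases hcov v with h | h
      · rw [h1] at h; exact Or.inl h
      · rw [h2] at h; exact Or.inr h
    · rcases hcov v with h | h
      · rw [h2] at h; exact Or.inr h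
      · rw [h1] at h; exact Or.inl h
    · exfalso
      rw [h1] at h2
      exact huw (Set.singleton_injective h2)
  have : Fintype.card V ≤ 2 := by
    rw [← Finset.card_univ]
    calc _ ≤ ({u, w} : Finset V).card := Finset.card_le_card (fun v _ => by
          have := hsmall v; simp [this])
      _ ≤ 2 := Finset.card_le_two
  omega

/-! ### reflections -/

lemma dsq_refl3 {a b e : Vec} (hN : ((b - a) ⨯₃ (e - a)) ≠ 0) (y z : Vec) :
    dsq (refl3 a b e y) (refl3 a b e z) = dsq y z := by
  unfold refl3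
  set N := (b - a) ⨯₃ (e - a) with hNdef
  have hNN : N ⬝ᵥ N ≠ 0 := fun h0 => hN (dotProduct_self_eq_zero.mp h0)
  obtain ⟨cy, hcy⟩ : ∃ c, c = (2 * (N ⬝ᵥ (y - a))) / (N ⬝ᵥ N) := ⟨_, rfl⟩
  obtain ⟨cz, hcz⟩ : ∃ c, c = (2 * (N ⬝ᵥ (z - a))) / (N ⬝ᵥ N) := ⟨_, rfl⟩
  rw [← hcy, ← hcz]
  rw [eq_div_iff hNN] at hcy hcz
  clear_value N
  simp only [dsq, dot3, Pi.sub_apply, Pi.smul_apply, smul_eq_mul] at hcy hcz ⊢
  linear_combination (cy - cz) * (hcy - hcz)

lemma refl3_fix {a b e y : Vec} (hN : ((b - a) ⨯₃ (e - a)) ≠ 0) (h : refl3 a b e y = y) :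
    ((b - a) ⨯₃ (e - a)) ⬝ᵥ (y - a) = 0 := by
  unfold refl3 at h
  set N := (b - a) ⨯₃ (e - a) with hNdef
  have hNN : N ⬝ᵥ N ≠ 0 := fun h0 => hN (dotProduct_self_eq_zero.mp h0)
  rw [sub_eq_self, smul_eq_zero] at h
  rcases h with h | h
  · rw [div_eq_zero_iff] at h
    rcases h with h | h
    · linarith
    · exact absurd h hNN
  · exact absurd h hN

/-- a configuration congruent to `p` with the same triangle is `p` or its reflection -/
lemma cgr_dich {p q : V → Vec} {x1 x2 x3 : V} (hN : (p x2 - p x1) ⨯₃ (p x3 - p x1) ≠ 0)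
    (hq : Cgr Set.univ p q) (h1 : q x1 = p x1) (h2 : q x2 = p x2) (h3 : q x3 = p x3) :
    q = p ∨ q = fun v => refl3 (p x1) (p x2) (p x3) (p v) := by
  set N := (p x2 - p x1) ⨯₃ (p x3 - p x1) with hNdef
  have hNN : N ⬝ᵥ N ≠ 0 := fun h0 => hN (dotProduct_self_eq_zero.mp h0)
  -- all dot products are preserved
  have hdot : ∀ v v', (q v - p x1) ⬝ᵥ (q v' - p x1) = (p v - p x1) ⬝ᵥ (p v' - p x1) := by
    intro v v'
    have e1 := hq v (Set.mem_univ _) v' (Set.mem_univ _)
    have e2 := hq v (Set.mem_univ _) x1 (Set.mem_univ _)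
    have e3 := hq v' (Set.mem_univ _) x1 (Set.mem_univ _)
    rw [h1] at e2 e3
    simp only [dsq, dot3, Pi.sub_apply] at e1 e2 e3 ⊢
    linear_combination (e2 + e3 - e1) / 2
  have hr : ∀ v, ∃ r : ℝ, q v - p v = r • N := by
    intro v
    have e2 := hdot v x2
    have e3 := hdot v x3
    rw [h2] at e2
    rw [h3] at e3
    apply cross_zero _ _ hN
    have f2 : (q v - p v) ⬝ᵥ (p x2 - p x1) = 0 := by
      simp only [dot3, Pi.sub_apply] at e2 ⊢
      linear_combination e2
    have f3 : (q v - p v) ⬝ᵥ (p x3 - p x1) = 0 := by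
      simp only [dot3, Pi.sub_apply] at e3 ⊢
      linear_combination e3
    rw [hNdef]
    clear_value N
    generalize q v - p v = z at f2 f3 ⊢
    generalize p x2 - p x1 = s at f2 f3 ⊢
    generalize p x3 - p x1 = t at f2 f3 ⊢
    rw [dot3] at f2 f3
    apply vec_ext <;> simp only [cross_eq, Matrix.cons_val, Pi.zero_apply]
    · linear_combination (s 0) * f3 - (t 0) * f2
    · linear_combination (s 1) * f3 - (t 1) * f2
    · linear_combination (s 2) * f3 - (t 2) * f2
  choose r hr using hr
  have hqv : ∀ v, q v = p v + r v • N := fun v => by rw [← hr v]; abel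
  have hrr : ∀ v v', r v' * ((p v - p x1) ⬝ᵥ N) + r v * ((p v' - p x1) ⬝ᵥ N) +
      r v * r v' * (N ⬝ᵥ N) = 0 := by
    intro v v'
    have e := hdot v v'
    rw [hqv v, hqv v'] at e
    clear_value N
    simp only [dot3, Pi.sub_apply, Pi.add_apply, Pi.smul_apply, smul_eq_mul] at e ⊢
    linear_combination e
  by_cases hex : ∃ v, (p v - p x1) ⬝ᵥ N ≠ 0 ∧ r v = 0
  · left
    obtain ⟨v, hv, hrv⟩ := hex
    funext v'
    have e := hrr v v'
    rw [hrv] at e
    have : r v' = 0 := by
      have : r v' * ((p v - p x1) ⬝ᵥ N) = 0 := by linear_combination e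
      exact (mul_eq_zero.mp this).resolve_right hv
    rw [hqv v', this, zero_smul, add_zero]
  · right
    push Not at hex
    funext v
    have hc : N ⬝ᵥ (p v - p x1) = (p v - p x1) ⬝ᵥ N := dotProduct_comm _ _
    have e := hrr v v
    have e' : r v * (2 * ((p v - p x1) ⬝ᵥ N) + r v * (N ⬝ᵥ N)) = 0 := by linear_combination e
    have hrv : r v = - ((2 * (N ⬝ᵥ (p v - p x1))) / (N ⬝ᵥ N)) := by
      rw [hc]
      by_cases h0 : (p v - p x1) ⬝ᵥ N = 0
      · rw [h0] at e' ⊢
        simp only [mul_zero, zero_add, zero_div, neg_zero] at e' ⊢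
        rcases mul_eq_zero.mp e' with h | h
        · exact h
        · exact (mul_eq_zero.mp h).resolve_right hNN
      · have h6 := hex v h0
        have h7 := (mul_eq_zero.mp e').resolve_left h6
        rw [← neg_div, eq_div_iff hNN]
        linear_combination h7
    show q v = p v - _ • _
    rw [hqv v, hrv, neg_smul, ← sub_eq_add_neg, ← hNdef]

/-! ### coplanar configurations are very flexible -/

/-- motions of a coplanar configuration -/
def planeMap (q : V → Vec) (a s t : Vec) : ((V → ℝ) × (Fin 3 → ℝ)) →ₗ[ℝ] (V → Vec) where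
  toFun z := fun v => z.1 v • (s ⨯₃ t) + (z.2 0 • s + z.2 1 • t + z.2 2 • ((s ⨯₃ t) ⨯₃ (q v - a)))
  map_add' x y := by
    funext v
    simp only [Prod.fst_add, Prod.snd_add, Pi.add_apply, add_smul]
    abel
  map_smul' c x := by
    funext v
    simp only [Prod.smul_fst, Prod.smul_snd, Pi.smul_apply, smul_eq_mul, mul_smul,
      RingHom.id_apply, smul_add]

lemma coplanar_flex {H : SimpleGraph V} {q : V → Vec} {x1 x2 x3 : V}
    (hN : (q x2 - q x1) ⨯₃ (q x3 - q x1) ≠ 0)
    (hpl : ∀ v, ((q x2 - q x1) ⨯₃ (q x3 - q x1)) ⬝ᵥ (q v - q x1) = 0) :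
    Fintype.card V + 3 ≤ finrank ℝ (infMot H q) := by
  set s := q x2 - q x1 with hs
  set t := q x3 - q x1 with ht
  set N := s ⨯₃ t with hNdef
  have hNN : N ⬝ᵥ N ≠ 0 := fun h0 => hN (dotProduct_self_eq_zero.mp h0)
  have hNs : N ⬝ᵥ s = 0 := by rw [hNdef]; simp only [dot3, cross_eq, Matrix.cons_val]; ring
  have hNt : N ⬝ᵥ t = 0 := by rw [hNdef]; simp only [dot3, cross_eq, Matrix.cons_val]; ring
  have hmem : LinearMap.range (planeMap q (q x1) s t) ≤ infMot H q := by
    rintro _ ⟨z, rfl⟩ u w _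
    show ((z.1 u • N + (z.2 0 • s + z.2 1 • t + z.2 2 • (N ⨯₃ (q u - q x1)))) -
      (z.1 w • N + (z.2 0 • s + z.2 1 • t + z.2 2 • (N ⨯₃ (q w - q x1))))) ⬝ᵥ (q u - q w) = 0
    have e1 := hpl u
    have e2 := hpl w
    clear_value N
    simp only [dot3, cross_eq, Pi.sub_apply, Pi.add_apply, Pi.smul_apply, smul_eq_mul,
      Matrix.cons_val] at e1 e2 ⊢
    linear_combination (z.1 u - z.1 w) * (e1 - e2)
  have hinj : Function.Injective (planeMap q (q x1) s t) := by
    rw [← LinearMap.ker_eq_bot, LinearMap.ker_eq_bot']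
    rintro ⟨α, β⟩ h0
    have h1 : ∀ v, α v • N + (β 0 • s + β 1 • t + β 2 • (N ⨯₃ (q v - q x1))) = 0 :=
      fun v => congrFun h0 v
    have hα : ∀ v, α v = 0 := by
      intro v
      have h2 : N ⬝ᵥ (α v • N + (β 0 • s + β 1 • t + β 2 • (N ⨯₃ (q v - q x1)))) = 0 := by
        rw [h1 v, dotProduct_zero]
      have h3 : N ⬝ᵥ (N ⨯₃ (q v - q x1)) = 0 := dot_self_cross _ _
      rw [dotProduct_add, dotProduct_add, dotProduct_add, dotProduct_smul, dotProduct_smul,
        dotProduct_smul, dotProduct_smul, hNs, hNt, h3] at h2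
      simp only [smul_eq_mul, mul_zero, add_zero] at h2
      exact (mul_eq_zero.mp h2).resolve_right hNN
    have h4 := h1 x1
    rw [hα x1, zero_smul, zero_add, sub_self] at h4
    have h4' : β 0 • s + β 1 • t = 0 := by
      rw [← h4]
      simp
    have hβ0 : β 0 = 0 := by
      have : (β 0 • s + β 1 • t) ⨯₃ t = β 0 • N := by
        rw [hNdef]
        apply vec_ext <;> simp only [cross_eq, Pi.add_apply, Pi.smul_apply, smul_eq_mul,
          Matrix.cons_val] <;> ring
      rw [h4'] at this
      have h5 : β 0 • N = 0 := by rw [← this]; simp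
      exact (smul_eq_zero.mp h5).resolve_right hN
    have hβ1 : β 1 = 0 := by
      have : s ⨯₃ (β 0 • s + β 1 • t) = β 1 • N := by
        rw [hNdef]
        apply vec_ext <;> simp only [cross_eq, Pi.add_apply, Pi.smul_apply, smul_eq_mul,
          Matrix.cons_val] <;> ring
      rw [h4'] at this
      have h5 : β 1 • N = 0 := by rw [← this]; simp
      exact (smul_eq_zero.mp h5).resolve_right hN
    have h6 := h1 x2
    rw [hα x2, hβ0, hβ1, zero_smul, zero_smul, zero_smul, zero_add, zero_add, zero_add, ← hs] at h6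
    have hβ2 : β 2 = 0 := by
      rcases smul_eq_zero.mp h6 with h | h
      · exact h
      · exfalso
        -- N × s = 0 implies s is a multiple of N, so s = 0
        have hsN : s ⨯₃ N = 0 := by
          rw [← neg_eq_zero, cross_anticomm]; exact h
        obtain ⟨r, hr⟩ := cross_zero s N hN hsN
        have h8 : N ⬝ᵥ s = r * (N ⬝ᵥ N) := by rw [hr, dotProduct_smul, smul_eq_mul]
        rw [hNs] at h8
        have hr0 : r = 0 := (mul_eq_zero.mp h8.symm).resolve_right hNN
        have hs0 : s = 0 := by rw [hr, hr0, zero_smul]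
        apply hN
        rw [hNdef, hs0]; simp
    refine Prod.ext (funext hα) ?_
    funext i
    fin_cases i
    · exact hβ0
    · exact hβ1
    · exact hβ2
  have h1 : finrank ℝ (LinearMap.range (planeMap q (q x1) s t)) = Fintype.card V + 3 := by
    rw [LinearMap.finrank_range_of_inj hinj, finrank_prod]
    simp
  rw [← h1]
  exact Submodule.finrank_mono hmem

/-! ### analysis -/

lemma first_return {h : ℝ → ℝ} {d T : ℝ} (hc : Continuous h) (hd : HasDerivAt h d 0) (hd0 : 0 < d)
    (hT : 0 < T) (hT0 : h T = h 0) :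
    ∃ t' : ℝ, 0 < t' ∧ h t' = h 0 ∧ (∀ t, 0 < t → t < t' → h 0 < h t) ∧
      ∃ ε : ℝ, 0 < ε ∧ ∀ t, -ε < t → t < 0 → h t < h 0 := by
  rw [hasDerivAt_iff_tendsto_slope] at hd
  have hev : ∀ᶠ t in 𝓝[≠] (0:ℝ), 0 < slope h 0 t := hd.eventually (lt_mem_nhds hd0)
  rw [eventually_nhdsWithin_iff, Metric.eventually_nhds_iff] at hev
  obtain ⟨ε, hε, hev⟩ := hev
  have hpos : ∀ t, 0 < t → t < ε → h 0 < h t := by
    intro t h1 h2
    have h3 := hev (y := t) (by rw [dist_zero_right, Real.norm_eq_abs, abs_of_pos h1]; exact h2)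
      (ne_of_gt h1)
    rw [slope_def_field, sub_zero] at h3
    have h4 := (div_pos_iff_of_pos_right h1).mp h3
    linarith
  have hneg : ∀ t, -ε < t → t < 0 → h t < h 0 := by
    intro t h1 h2
    have h3 := hev (y := t) (by rw [dist_zero_right, Real.norm_eq_abs, abs_of_neg h2]; linarith)
      (ne_of_lt h2)
    rw [slope_def_field, sub_zero] at h3
    rcases div_pos_iff.mp h3 with h4 | h4
    · linarith [h4.2]
    · linarith [h4.1]
  have hTε : ε ≤ T := by
    by_contra hlt
    push Not at hlt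
    have := hpos T hT hlt
    linarith
  set S : Set ℝ := Set.Icc (ε/2) T ∩ {t | h t = h 0} with hS
  have hScomp : IsCompact S := isCompact_Icc.inter_right (isClosed_eq hc continuous_const)
  have hSne : S.Nonempty := ⟨T, ⟨by linarith, le_rfl⟩, hT0⟩
  obtain ⟨t', ht'S, ht'min⟩ := hScomp.exists_isLeast hSne
  refine ⟨t', by have := ht'S.1.1; linarith, ht'S.2, fun t h1 h2 => ?_, ε, hε, hneg⟩
  by_cases h3 : t < ε
  · exact hpos t h1 h3
  · push Not at h3
    by_contra hle
    push Not at hle
    have hhalf : h 0 < h (ε/2) := hpos _ (by linarith) (by linarith)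
    have hmem : h 0 ∈ h '' Set.Icc (ε/2) t :=
      intermediate_value_Icc' (by linarith) hc.continuousOn ⟨hle, hhalf.le⟩
    obtain ⟨s, hs, hs0⟩ := hmem
    have h4 : s ∈ S := ⟨⟨hs.1, by have := ht'S.1.2; have := hs.2; linarith⟩, hs0⟩
    have h5 := ht'min h4
    have := hs.2
    linarith

/-- derivative of a squared distance along a curve -/
lemma hasDerivAt_dsq {γ : ℝ → V → Vec} {γ' : V → Vec} {t : ℝ} (h : HasDerivAt γ γ' t) (u w : V) :
    HasDerivAt (fun s => dsq (γ s u) (γ s w)) (2 * ((γ' u - γ' w) ⬝ᵥ (γ t u - γ t w))) t := by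
  have hi : ∀ v (i : Fin 3), HasDerivAt (fun s => γ s v i) (γ' v i) t := by
    intro v i
    exact (hasDerivAt_pi.mp ((hasDerivAt_pi.mp h) v)) i
  have h0 := ((hi u 0).sub (hi w 0)).mul ((hi u 0).sub (hi w 0))
  have h1 := ((hi u 1).sub (hi w 1)).mul ((hi u 1).sub (hi w 1))
  have h2 := ((hi u 2).sub (hi w 2)).mul ((hi u 2).sub (hi w 2))
  have h3 := (h0.add h1).add h2
  have e : (fun s => dsq (γ s u) (γ s w)) = fun s =>
      (γ s u 0 - γ s w 0) * (γ s u 0 - γ s w 0) + (γ s u 1 - γ s w 1) * (γ s u 1 - γ s w 1) +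
        (γ s u 2 - γ s w 2) * (γ s u 2 - γ s w 2) := by
    funext s
    simp only [dsq, dot3, Pi.sub_apply]
  rw [e]
  refine h3.congr_deriv ?_
  simp only [dot3, Pi.sub_apply]
  ring

/-- the case of a positive derivative -/
lemma hen_pos {H H1 : SimpleGraph V} {p : V → Vec} {u w x1 x2 x3 : V} (h5 : 5 ≤ Fintype.card V)
    (hN : (p x2 - p x1) ⨯₃ (p x3 - p x1) ≠ 0) (hGR : GR H p)
    (hH : ∀ a b, H.Adj a b → H1.Adj a b ∨ (a = u ∧ b = w) ∨ (a = w ∧ b = u))
    (hrank : ∀ q, Eqv H1 p q → finrank ℝ (infMot H1 q) = 7)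
    (γ : ℝ → V → Vec) (d : ℝ) (h0 : γ 0 = p) (hcont : Continuous γ)
    (hder : HasDerivAt (fun s => dsq (γ s u) (γ s w)) d 0) (hd0 : 0 < d)
    (heqv : ∀ t, Eqv H1 p (γ t))
    (hpin : ∀ t, γ t x1 = p x1 ∧ γ t x2 = p x2 ∧ γ t x3 = p x3)
    {T : ℝ} (hT : 0 < T) (hper : ∀ t, γ (t + T) = γ t)
    (hret : ∀ t₀, γ t₀ = p → ∀ t, γ (t₀ + t) = γ t)
    (hrefl : ∀ t₀, (γ t₀ = fun v => refl3 (p x1) (p x2) (p x3) (p v)) →
      (∀ t, γ (t₀ + t) = fun v => refl3 (p x1) (p x2) (p x3) (γ t v)) ∨
      (∀ t, γ (t₀ - t) = fun v => refl3 (p x1) (p x2) (p x3) (γ t v))) : False := by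
  have hcv : ∀ v, Continuous (fun s => γ s v) := fun v => (continuous_apply v).comp hcont
  have hci : ∀ v (i : Fin 3), Continuous (fun s => γ s v i) :=
    fun v i => (continuous_apply i).comp (hcv v)
  have hc : Continuous (fun s => dsq (γ s u) (γ s w)) := by
    have e : (fun s => dsq (γ s u) (γ s w)) = fun s =>
        (γ s u 0 - γ s w 0) * (γ s u 0 - γ s w 0) + (γ s u 1 - γ s w 1) * (γ s u 1 - γ s w 1) +
          (γ s u 2 - γ s w 2) * (γ s u 2 - γ s w 2) := by
      funext s
      simp only [dsq, dot3, Pi.sub_apply]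
    rw [e]
    have := hci u 0
    have := hci u 1
    have := hci u 2
    have := hci w 0
    have := hci w 1
    have := hci w 2
    fun_prop
  have hT0 : (fun s => dsq (γ s u) (γ s w)) T = (fun s => dsq (γ s u) (γ s w)) 0 := by
    have := hper 0
    rw [zero_add] at this
    show dsq (γ T u) (γ T w) = dsq (γ 0 u) (γ 0 w)
    rw [this]
  obtain ⟨t', ht'0, ht'eq, ht'pos, ε, hε, hneg⟩ := first_return hc hder hd0 hT hT0
  have hE : Eqv H p (γ t') := by
    intro a b hab
    rcases hH a b hab with h | ⟨rfl, rfl⟩ | ⟨rfl, rfl⟩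
    · exact heqv t' a b h
    · rw [ht'eq, h0]
    · rw [dsq_comm (γ t' a), dsq_comm (p a), ht'eq, h0]
  have hcg := hGR _ hE
  -- translation by t' cannot preserve the length
  have hno : ¬ (∀ t, dsq (γ (t' + t) u) (γ (t' + t) w) = dsq (γ t u) (γ t w)) := by
    intro hall
    have hm : 0 < min ε t' := lt_min hε ht'0
    have hm1 := min_le_left ε t'
    have hm2 := min_le_right ε t'
    have e1 := hall (-(min ε t' / 2))
    have e2 := ht'pos (t' + -(min ε t' / 2)) (by linarith) (by linarith)
    have e3 := hneg (-(min ε t' / 2)) (by linarith) (by linarith)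
    linarith
  rcases cgr_dich hN hcg (hpin t').1 (hpin t').2.1 (hpin t').2.2 with h | h
  · apply hno
    intro t
    rw [hret t' h t]
  · rcases hrefl t' h with h1 | h1
    · apply hno
      intro t
      rw [h1 t]
      exact dsq_refl3 hN _ _
    · have h2 := h1 (t' / 2)
      rw [sub_half] at h2
      obtain ⟨q1, q2, q3⟩ := hpin (t' / 2)
      have h3 := coplanar_flex (H := H1) (q := γ (t' / 2)) (x1 := x1) (x2 := x2) (x3 := x3)
        (by rw [q1, q2, q3]; exact hN)
        (by
          intro v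
          rw [q1, q2, q3]
          exact refl3_fix hN (congrFun h2 v).symm)
      rw [hrank _ (heqv _)] at h3
      omega

end

/-- redundant rigidity -/
theorem hen (hCURV : T_CURV) (hNEC1 : T_NEC1) (hRANK : T_RANK) (hIM : T_IM) (hCLQ : T_CLQ)
    (hGP : T_GP) : T_HEN := by
  intro V _ H p u w x1 x2 x3 h5 hp hGR huw e12 e13 e23
  by_contra hlt
  push Not at hlt
  obtain ⟨H1, hle, h7⟩ := exists_seven (H' := delE H u w) (by omega) (top_le hCLQ hp)
  have hconn : H1.Connected := (conn_delE (hNEC1 V H p hp hGR) h5 huw.ne).mono hle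
  obtain ⟨γ, γ', h0, hder, hne, heqv, hpin, ⟨T, hT, hper⟩, hret, hrefl⟩ :=
    hCURV V H1 p x1 x2 x3 h5 hp (hle e12) (hle e13) (hle e23) hconn h7
  have hN : (p x2 - p x1) ⨯₃ (p x3 - p x1) ≠ 0 := (hGP V p hp).2.1 x1 x2 x3 e12.ne e13.ne e23.ne
  have hH : ∀ a b, H.Adj a b → H1.Adj a b ∨ (a = u ∧ b = w) ∨ (a = w ∧ b = u) := by
    intro a b hab
    by_cases h1 : a = u ∧ b = w
    · exact Or.inr (Or.inl h1)
    · by_cases h2 : a = w ∧ b = u
      · exact Or.inr (Or.inr h2)
      · exact Or.inl (hle ⟨hab, h1, h2⟩)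
  have hrank : ∀ q, Eqv H1 p q → finrank ℝ (infMot H1 q) = 7 := fun q hq => by
    rw [(hRANK V H1 p q hp hq).2, h7]
  have hcont : Continuous γ := continuous_iff_continuousAt.mpr fun t => (hder t).continuousAt
  -- velocities are infinitesimal motions
  have hvel : ∀ t, γ' t ∈ infMot H1 (γ t) := by
    intro t a b hab
    have h1 := hasDerivAt_dsq (hder t) a b
    have h2 : (fun s => dsq (γ s a) (γ s b)) = fun _ => dsq (p a) (p b) := by
      funext s; exact heqv s a b hab
    rw [h2] at h1
    have h3 := h1.unique (hasDerivAt_const t (dsq (p a) (p b)))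
    linarith
  have hvpin : ∀ x, (∀ t, γ t x = p x) → γ' 0 x = 0 := by
    intro x hx
    have h1 : HasDerivAt (fun s => γ s x) (γ' 0 x) 0 := (hasDerivAt_pi.mp (hder 0)) x
    have h2 : (fun s => γ s x) = fun _ => p x := funext hx
    rw [h2] at h1
    exact h1.unique (hasDerivAt_const 0 (p x))
  by_cases hbar : (γ' 0 u - γ' 0 w) ⬝ᵥ (p u - p w) = 0
  · -- the bar is satisfied by all motions, so its length is constant
    have hinj : Function.Injective (scrMap p) := by
      rw [← LinearMap.ker_eq_bot, LinearMap.ker_eq_bot']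
      intro S hS
      exact scr_three S (p x1) (p x2) (p x3) hN (congrFun hS x1) (congrFun hS x2) (congrFun hS x3)
    have hrange : LinearMap.range (scrMap p) ≤ infMot (addE H1 u w) p := by
      rintro _ ⟨S, rfl⟩
      exact scrMap_mem _ p S
    have hv0 : γ' 0 ∈ infMot (addE H1 u w) p := by
      rw [mem_infMot_addE]
      have := hvel 0
      rw [h0] at this
      exact ⟨this, hbar⟩
    have hlt' : LinearMap.range (scrMap p) < infMot (addE H1 u w) p := by
      refine lt_of_le_of_ne hrange fun heq => ?_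
      rw [← heq] at hv0
      obtain ⟨S, hS⟩ := hv0
      have hS0 : S = 0 := by
        apply scr_three S (p x1) (p x2) (p x3) hN
        · have := congrFun hS x1
          rw [hvpin x1 (fun t => (hpin t).1)] at this
          exact this
        · have := congrFun hS x2
          rw [hvpin x2 (fun t => (hpin t).2.1)] at this
          exact this
        · have := congrFun hS x3
          rw [hvpin x3 (fun t => (hpin t).2.2)] at this
          exact this
      rw [hS0, map_zero] at hS
      exact hne 0 hS.symm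
    have hf6 : finrank ℝ (LinearMap.range (scrMap p)) = 6 := by
      rw [LinearMap.finrank_range_of_inj hinj, finrank_scr]
    have hf7 := Submodule.finrank_lt_finrank_of_lt hlt'
    rw [hf6] at hf7
    have hle12 : H1 ≤ addE H1 u w := fun a b e => Or.inl e
    have hbt : ∀ t, (γ' t u - γ' t w) ⬝ᵥ (γ t u - γ t w) = 0 := by
      intro t
      have h1 := hIM V (addE H1 u w) p (γ t) hp
      have h2 := hrank (γ t) (heqv t)
      have h3 : infMot (addE H1 u w) (γ t) = infMot H1 (γ t) := by
        apply Submodule.eq_of_le_of_finrank_le (infMot_mono hle12 _)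
        omega
      have h4 := hvel t
      rw [← h3, mem_infMot_addE] at h4
      exact h4.2
    have hconst : ∀ t, dsq (γ t u) (γ t w) = dsq (p u) (p w) := by
      intro t
      have hd : ∀ s, HasDerivAt (fun s => dsq (γ s u) (γ s w)) 0 s := by
        intro s
        have := hasDerivAt_dsq (hder s) u w
        rw [hbt s, mul_zero] at this
        exact this
      have h1 := is_const_of_deriv_eq_zero (fun s => (hd s).differentiableAt)
        (fun s => (hd s).deriv) t 0
      rw [h1, h0]
    have hdich : ∀ t, γ t = p ∨ γ t = fun v => refl3 (p x1) (p x2) (p x3) (p v) := by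
      intro t
      apply cgr_dich hN _ (hpin t).1 (hpin t).2.1 (hpin t).2.2
      apply hGR
      intro a b hab
      rcases hH a b hab with h | ⟨rfl, rfl⟩ | ⟨rfl, rfl⟩
      · exact heqv t a b h
      · exact hconst t
      · rw [dsq_comm (γ t a), dsq_comm (p a)]; exact hconst t
    have hev : ∀ᶠ t in 𝓝 (0:ℝ), γ t = p := by
      by_cases hσ : (fun v => refl3 (p x1) (p x2) (p x3) (p v)) = p
      · refine Filter.Eventually.of_forall fun t => ?_
        rcases hdich t with h | h
        · exact h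
        · rw [h, hσ]
      · have h1 : ∀ᶠ t in 𝓝 (0:ℝ), γ t ≠ (fun v => refl3 (p x1) (p x2) (p x3) (p v)) := by
          have h2 : ContinuousAt γ 0 := (hder 0).continuousAt
          apply h2.eventually_ne
          rw [h0]; exact fun h => hσ h.symm
        filter_upwards [h1] with t ht
        exact (hdich t).resolve_right ht
    have h1 : HasDerivAt γ 0 0 := (hasDerivAt_const (0:ℝ) p).congr_of_eventuallyEq hev
    exact hne 0 ((hder 0).unique h1)
  · have hd := hasDerivAt_dsq (hder 0) u w
    rw [h0] at hd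
    rcases lt_or_gt_of_ne hbar with hb | hb
    · -- reverse time
      have hrev : HasDerivAt (fun s => dsq (γ (-s) u) (γ (-s) w))
          (-(2 * ((γ' 0 u - γ' 0 w) ⬝ᵥ (p u - p w)))) 0 := by
        have h1 : HasDerivAt (fun s => dsq (γ s u) (γ s w))
          (2 * ((γ' 0 u - γ' 0 w) ⬝ᵥ (p u - p w))) (-0) := by rw [neg_zero]; exact hd
        have h2 := h1.scomp (0:ℝ) (hasDerivAt_neg (0:ℝ))
        refine h2.congr_deriv ?_
        simp
      refine hen_pos (H := H) (H1 := H1) h5 hN hGR hH hrank (fun t => γ (-t)) _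
        (by simp only [neg_zero]; exact h0) (hcont.comp continuous_neg) hrev (by linarith)
        (fun t => heqv (-t)) (fun t => hpin (-t)) hT ?_ ?_ ?_
      · intro t
        show γ (-(t + T)) = γ (-t)
        have := hper (-(t + T))
        rw [← this]
        congr 1
        ring
      · intro t₀ ht t
        show γ (-(t₀ + t)) = γ (-t)
        have := hret (-t₀) ht (-t)
        rw [← this]
        congr 1
        ring
      · intro t₀ ht
        rcases hrefl (-t₀) ht with h | h
        · left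
          intro t
          show γ (-(t₀ + t)) = _
          rw [← h (-t)]
          congr 1
          ring
        · right
          intro t
          show γ (-(t₀ - t)) = _
          rw [← h (-t)]
          congr 1
          ring
    · exact hen_pos (H := H) (H1 := H1) h5 hN hGR hH hrank γ _ h0 hcont hd (by linarith)
        heqv hpin hT hper hret hrefl

end Pool.Agent.H70.MG
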