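import Pool.Agent.H52.MG.Basic
import Pool.Agent.H52.MG.Targets

/-!
# Module MTC of the MG project: case distinction for multigraphs
-/

set_option autoImplicit false
set_option linter.unusedSectionVars false

noncomputable section

open Classical
open Pool.Agent.H52.MG

namespace Pool.Agent.H70.MG

section
variable {K : Type} [Fintype K]

/-- twice the number of edges inside `Z` -/
def e2 (m : K → K → ℕ) (Z : Finset K) : ℕ := ∑ x ∈ Z, ∑ y ∈ Z, m x y

/-- twice the number of crossing edges inside `Z` -/
def x2 {L : Type} (m : K → K → ℕ) (Z : Finset K) (Q : K → L) : ℕ :=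
  ∑ x ∈ Z, ∑ y ∈ Z, if Q x ≠ Q y then m x y else 0

lemma e2_split {L : Type} (m : K → K → ℕ) (Z : Finset K) (Q : K → L) :
    e2 m Z = x2 m Z Q + ∑ c ∈ Z.image Q, e2 m (Z.filter (fun x => Q x = c)) := by
  have h1 : e2 m Z = x2 m Z Q + ∑ x ∈ Z, ∑ y ∈ Z, if Q x = Q y then m x y else 0 := by
    unfold e2 x2
    rw [← Finset.sum_add_distrib]
    refine Finset.sum_congr rfl fun x _ => ?_
    rw [← Finset.sum_add_distrib]
    refine Finset.sum_congr rfl fun y _ => ?_
    by_cases h : Q x = Q y
    · simp [h]
    · simp [h]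
  rw [h1]
  congr 1
  rw [← Finset.sum_fiberwise_of_maps_to (s := Z) (t := Z.image Q) (g := Q)
    (fun x hx => Finset.mem_image_of_mem Q hx)]
  refine Finset.sum_congr rfl fun c _ => ?_
  unfold e2
  refine Finset.sum_congr rfl fun x hx => ?_
  have hxc : Q x = c := (Finset.mem_filter.mp hx).2
  rw [Finset.sum_filter]
  refine Finset.sum_congr rfl fun y _ => ?_
  rw [hxc]
  simp only [eq_comm]

lemma card_split {L : Type} (Z : Finset K) (Q : K → L) :
    Z.card = ∑ c ∈ Z.image Q, (Z.filter (fun x => Q x = c)).card :=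
  Finset.card_eq_sum_card_image Q Z

lemma e2_even {m : K → K → ℕ} (hm : MSym m) (Z : Finset K) : Even (e2 m Z) := by
  -- restrict m to Z and use me2_even for the identity colouring
  let m' : K → K → ℕ := fun x y => if x ∈ Z ∧ y ∈ Z then m x y else 0
  have hm' : MSym m' := by
    refine ⟨fun x y => ?_, fun x => ?_⟩
    · show (if x ∈ Z ∧ y ∈ Z then m x y else 0) = (if y ∈ Z ∧ x ∈ Z then m y x else 0)
      rw [hm.1 x y]
      by_cases h : x ∈ Z ∧ y ∈ Z
      · rw [if_pos h, if_pos h.symm]
      · rw [if_neg h, if_neg (fun k => h k.symm)]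
    · show (if x ∈ Z ∧ x ∈ Z then m x x else 0) = 0
      rw [hm.2 x]; simp
  have h := me2_even m' hm' (id : K → K)
  have h2 : me2 m' (id : K → K) = e2 m Z := by
    unfold me2 e2
    have h3 : ∀ x : K, (∑ y : K, if id x ≠ id y then m' x y else 0) =
        if x ∈ Z then ∑ y ∈ Z, m x y else 0 := by
      intro x
      by_cases hx : x ∈ Z
      · rw [if_pos hx, ← Finset.sum_subset (Finset.subset_univ Z)]
        · refine Finset.sum_congr rfl fun y hy => ?_
          by_cases hxy : x = y
          · subst hxy; simp [hm.2]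
          · show (if x ≠ y then (if x ∈ Z ∧ y ∈ Z then m x y else 0) else 0) = _
            rw [if_pos hxy, if_pos ⟨hx, hy⟩]
        · intro y _ hy
          show (if x ≠ y then (if x ∈ Z ∧ y ∈ Z then m x y else 0) else 0) = _
          rw [if_neg (fun h : x ∈ Z ∧ y ∈ Z => hy h.2)]
          simp
      · rw [if_neg hx]
        refine Finset.sum_eq_zero fun y _ => ?_
        show (if x ≠ y then (if x ∈ Z ∧ y ∈ Z then m x y else 0) else 0) = _
        rw [if_neg (fun h : x ∈ Z ∧ y ∈ Z => hx h.1)]
        simp
    rw [Finset.sum_congr rfl fun x _ => h3 x, ← Finset.sum_filter]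
    simp
  rwa [h2] at h

lemma e2_singleton {m : K → K → ℕ} (hm : MSym m) {Z : Finset K} (h : Z.card = 1) :
    e2 m Z = 0 := by
  obtain ⟨x, rfl⟩ := Finset.card_eq_one.mp h
  simp [e2, hm.2]

lemma e2_univ (m : K → K → ℕ) : e2 m Finset.univ = ∑ x, mdeg m x := rfl

lemma other_nbr {m : K → K → ℕ} {x y : K} (h2 : mdeg m x = 2) (hle : ∀ z, m x z ≤ 1)
    (hy : m x y = 1) : ∃ z, z ≠ y ∧ m x z = 1 := by
  unfold mdeg at h2
  rw [← Finset.add_sum_erase Finset.univ (m x) (Finset.mem_univ y), hy] at h2
  by_contra hc
  push Not at hc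
  have : ∑ z ∈ Finset.univ.erase y, m x z = 0 := by
    refine Finset.sum_eq_zero fun z hz => ?_
    have h3 := hc z (Finset.ne_of_mem_erase hz)
    have h4 := hle z
    omega
  omega

lemma e2_triple {m : K → K → ℕ} (hm : MSym m) {x y z : K} (hxy : x ≠ y) (hxz : x ≠ z)
    (hyz : y ≠ z) : e2 m {x, y, z} = 2 * (m x y + m x z + m y z) := by
  have h3 : ∀ F : K → ℕ, ∑ w ∈ ({x, y, z} : Finset K), F w = F x + F y + F z := by
    intro F
    rw [Finset.sum_insert (by simp [hxy, hxz]), Finset.sum_pair hyz, add_assoc]
  unfold e2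
  rw [h3, h3, h3, h3, hm.2, hm.2, hm.2, hm.1 y x, hm.1 z x, hm.1 z y]
  ring

lemma e2_pair {m : K → K → ℕ} (hm : MSym m) {x y : K} (hxy : x ≠ y) :
    e2 m {x, y} = 2 * m x y := by
  unfold e2
  rw [Finset.sum_pair hxy, Finset.sum_pair hxy, Finset.sum_pair hxy, hm.2, hm.2, hm.1 y x]
  ring

end

/-- case distinction for multigraphs -/
theorem mtc (hCNT : T_CNT) : T_MTC := by
  intro K _ m k hm hn hk
  by_cases a1 : ∃ x, mdeg m x ≤ 1
  · exact Or.inl a1
  right
  by_cases a2 : ∃ Z : Finset K, 2 ≤ Z.card ∧ Z.card < Fintype.card K ∧ ∀ Q : K → K, 0 ≤ al m Z Q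
  · exact Or.inl a2
  right
  by_cases a3 : ∃ x y, 0 < m x y ∧ ∀ Q : K → K, Q x ≠ Q y → 10 - 2 * (k : ℤ) ≤ ms2 m Q
  · exact Or.inl a3
  right
  push Not at a1 a2 a3
  -- (1) sparsity
  have sparse : ∀ n : ℕ, ∀ Z : Finset K, Z.card = n → 2 ≤ Z.card → Z.card < Fintype.card K →
      5 * e2 m Z + 14 ≤ 12 * Z.card := by
    intro n
    induction n using Nat.strong_induction_on with
    | _ n ih =>
      intro Z hZn hZ2 hZlt
      by_contra hcon
      have heven := e2_even hm Z
      obtain ⟨r, hr⟩ := heven
      have hge : 12 * Z.card ≤ 5 * e2 m Z + 12 := by omega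
      obtain ⟨Q, hQ⟩ := a2 Z hZ2 hZlt
      have hx : al m Z Q = 5 * (x2 m Z Q : ℤ) - 12 * ((Z.image Q).card : ℤ) + 12 := rfl
      by_cases hone : (Z.image Q).card ≤ 1
      · have : 0 ≤ al m Z Q := by rw [hx]; omega
        omega
      · have hsp := e2_split m Z Q
        have hcs := card_split Z Q
        have hpart : ∀ c ∈ Z.image Q, 5 * e2 m (Z.filter (fun x => Q x = c)) + 12 ≤
            12 * (Z.filter (fun x => Q x = c)).card := by
          intro c hc
          set P := Z.filter (fun x => Q x = c) with hP
          have hPZ : P ⊆ Z := Finset.filter_subset _ _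
          have hPpos : 1 ≤ P.card := by
            obtain ⟨x, hx, hxc⟩ := Finset.mem_image.mp hc
            exact Finset.card_pos.mpr ⟨x, by simp [hP, hx, hxc]⟩
          have hPlt : P.card < Z.card := by
            apply Finset.card_lt_card
            refine ⟨hPZ, fun hZP => hone ?_⟩
            have : Z.image Q ⊆ {c} := by
              intro d hd
              obtain ⟨x, hx, rfl⟩ := Finset.mem_image.mp hd
              have := hZP hx
              rw [hP, Finset.mem_filter] at this
              simp [this.2]
            calc (Z.image Q).card ≤ ({c} : Finset K).card := Finset.card_le_card this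
              _ = 1 := Finset.card_singleton c
          rcases Nat.lt_or_ge P.card 2 with h1 | h1
          · have h1' : P.card = 1 := by omega
            rw [e2_singleton hm h1', h1']
          · have := ih P.card (by omega) P rfl h1 (by omega)
            omega
        have hsum := Finset.sum_le_sum hpart
        rw [Finset.sum_add_distrib, ← Finset.mul_sum, ← Finset.mul_sum, ← hcs,
          Finset.sum_const, smul_eq_mul] at hsum
        have : 0 ≤ al m Z Q := by rw [hx]; omega
        omega
  have sparse' : ∀ Z : Finset K, 2 ≤ Z.card → Z.card < Fintype.card K →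
      5 * e2 m Z + 14 ≤ 12 * Z.card := fun Z => sparse Z.card Z rfl
  have part : ∀ (Q : K → K), 2 ≤ pt Q → ∀ c ∈ Finset.univ.image Q,
      5 * e2 m (Finset.univ.filter (fun x => Q x = c)) + 12 ≤
        12 * (Finset.univ.filter (fun x => Q x = c)).card := by
    intro Q hQ2 c hc
    set P := Finset.univ.filter (fun x => Q x = c) with hP
    have hPpos : 1 ≤ P.card := by
      obtain ⟨x, hx, hxc⟩ := Finset.mem_image.mp hc
      exact Finset.card_pos.mpr ⟨x, by simp [hP, hxc]⟩
    have hPlt : P.card < Fintype.card K := by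
      apply Finset.card_lt_card
      refine ⟨Finset.subset_univ _, fun hZP => ?_⟩
      have : Finset.univ.image Q ⊆ {c} := by
        intro d hd
        obtain ⟨x, hx, rfl⟩ := Finset.mem_image.mp hd
        have := hZP hx
        rw [hP, Finset.mem_filter] at this
        simp [this.2]
      have h4 : pt Q ≤ 1 := by
        unfold pt
        calc _ ≤ ({c} : Finset K).card := Finset.card_le_card this
          _ = 1 := Finset.card_singleton c
      omega
    rcases Nat.lt_or_ge P.card 2 with h1 | h1
    · have h1' : P.card = 1 := by omega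
      rw [e2_singleton hm h1', h1']
    · have := sparse' P h1 hPlt
      omega
  have hms : ∀ Q : K → K, ms2 m Q = 5 * (x2 m Finset.univ Q : ℤ) - 12 * (pt Q : ℤ) + 12 :=
    fun _ => rfl
  have hcard : (Finset.univ : Finset K).card = Fintype.card K := Finset.card_univ
  -- (2) the main inequality
  have hpt : ∀ Q : K → K, (Finset.univ.image Q).card = pt Q := fun _ => rfl
  have main : 5 * (e2 m Finset.univ : ℤ) ≤ 12 * ((Fintype.card K : ℤ) - 1) + 8 - 2 * k := by
    have hKne : Nonempty K := Fintype.card_pos_iff.mp (by omega)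
    obtain ⟨x⟩ := hKne
    have hx := a1 x
    obtain ⟨y, hy⟩ : ∃ y, 0 < m x y := by
      by_contra hc
      push Not at hc
      have : mdeg m x = 0 := Finset.sum_eq_zero fun y _ => by have := hc y; omega
      omega
    obtain ⟨Q, hQ, hQlt⟩ := a3 x y hy
    have hQ2 : 2 ≤ pt Q := by
      unfold pt
      have : ({Q x, Q y} : Finset K) ⊆ Finset.univ.image Q := by
        intro z hz; simp only [Finset.mem_insert, Finset.mem_singleton] at hz
        rcases hz with rfl | rfl <;> simp
      calc 2 = ({Q x, Q y} : Finset K).card := (Finset.card_pair hQ).symm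
        _ ≤ _ := Finset.card_le_card this
    have hsum := Finset.sum_le_sum (part Q hQ2)
    have hsp := e2_split m Finset.univ Q
    have hcs := card_split Finset.univ Q
    rw [Finset.sum_add_distrib, ← Finset.mul_sum, ← Finset.mul_sum, ← hcs,
      Finset.sum_const, smul_eq_mul, hpt, hcard] at hsum
    obtain ⟨r, hr⟩ := ms2_even m hm Q
    have hmsQ := hms Q
    omega
  have hdeg2 : 2 * Fintype.card K ≤ e2 m Finset.univ := by
    rw [e2_univ, mul_comm, ← smul_eq_mul, ← hcard]
    exact Finset.card_nsmul_le_sum _ _ 2 fun x _ => by have := a1 x; omega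
  -- (3) two vertices
  by_cases n2 : Fintype.card K = 2
  · left
    refine ⟨n2, fun x => ?_⟩
    have h1 := a1 x
    have h2 : mdeg m x + ∑ y ∈ Finset.univ.erase x, mdeg m y = e2 m Finset.univ := by
      rw [e2_univ]; exact Finset.add_sum_erase Finset.univ (mdeg m) (Finset.mem_univ x)
    have h3 : 2 ≤ ∑ y ∈ Finset.univ.erase x, mdeg m y := by
      have h4 : (Finset.univ.erase x).card • 2 ≤ ∑ y ∈ Finset.univ.erase x, mdeg m y :=
        Finset.card_nsmul_le_sum _ _ 2 fun y _ => by have := a1 y; omega
      rw [Finset.card_erase_of_mem (Finset.mem_univ x), hcard, n2] at h4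
      simpa using h4
    omega
  right
  -- (4) no multiple edges
  have hle1 : ∀ x y, m x y ≤ 1 := by
    intro x y
    by_cases hxy : x = y
    · subst hxy; rw [hm.2]; omega
    · have hc : ({x, y} : Finset K).card = 2 := Finset.card_pair hxy
      have := sparse' {x, y} (by omega) (by omega)
      rw [e2_pair hm hxy, hc] at this
      omega
  by_cases n3 : Fintype.card K = 3
  · left
    refine ⟨n3, fun x y hxy => ?_⟩
    have h1 := a1 x
    have h2 : mdeg m x = m x y + ∑ z ∈ Finset.univ.erase y, m x z := by
      unfold mdeg; exact (Finset.add_sum_erase Finset.univ (m x) (Finset.mem_univ y)).symm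
    have hxm : x ∈ Finset.univ.erase y := by simp [hxy]
    have h3 : ∑ z ∈ Finset.univ.erase y, m x z = m x x + ∑ z ∈ (Finset.univ.erase y).erase x,
        m x z := (Finset.add_sum_erase _ (m x) hxm).symm
    have h4 : ∑ z ∈ (Finset.univ.erase y).erase x, m x z ≤ 1 := by
      calc _ ≤ ((Finset.univ.erase y).erase x).card • 1 :=
            Finset.sum_le_card_nsmul _ _ 1 fun z _ => hle1 x z
        _ = 1 := by
            rw [Finset.card_erase_of_mem hxm, Finset.card_erase_of_mem (Finset.mem_univ y),
              hcard, n3]; simp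
    rw [hm.2] at h3
    have h5 := hle1 x y
    omega
  right
  have n4 : 4 ≤ Fintype.card K := by omega
  have htri : ∀ x y z : K, x ≠ y → x ≠ z → y ≠ z → m x y + m x z + m y z ≤ 2 := by
    intro x y z hxy hxz hyz
    have hc : ({x, y, z} : Finset K).card = 3 := by
      rw [Finset.card_insert_of_notMem (by simp [hxy, hxz]), Finset.card_pair hyz]
    have := sparse' {x, y, z} (by omega) (by omega)
    rw [e2_triple hm hxy hxz hyz, hc] at this
    omega
  by_cases hk0 : k = 0
  · -- (6)
    right
    refine ⟨hk0, ?_⟩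
    obtain ⟨b, e, hb, he, hbe⟩ : ∃ b e, mdeg m b = 2 ∧ mdeg m e = 2 ∧ m b e ≠ 0 := by
      by_contra hc
      push Not at hc
      have := hCNT K m hm (fun x => by have := a1 x; omega) hc
      rw [← e2_univ] at this
      subst hk0
      omega
    have hbe1 : m b e = 1 := by have := hle1 b e; omega
    have hne : b ≠ e := by
      rintro rfl
      rw [hm.2] at hbe; exact hbe rfl
    obtain ⟨a, hae, hba⟩ := other_nbr hb (hle1 b) hbe1
    obtain ⟨f, hfb, hef⟩ := other_nbr he (hle1 e) (by rw [hm.1 e b]; exact hbe1 : m e b = 1)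
    have hab : a ≠ b := by
      rintro rfl
      rw [hm.2] at hba; omega
    refine ⟨a, b, e, f, hb, he, by rw [hm.1 a b]; exact hba, hbe1, hef, hae, hfb.symm, ?_⟩
    rintro rfl
    have h9 := htri a b e hab hae hne
    rw [hm.1 a b, hm.1 a e] at h9
    omega
  · -- (5)
    left
    refine ⟨by omega, ?_⟩
    obtain ⟨x, hx⟩ : ∃ x, mdeg m x = 2 := by
      by_contra hc
      push Not at hc
      have : 3 * Fintype.card K ≤ e2 m Finset.univ := by
        rw [e2_univ, mul_comm, ← smul_eq_mul, ← hcard]
        exact Finset.card_nsmul_le_sum _ _ 3 fun x _ => by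
          have := a1 x; have := hc x; omega
      omega
    obtain ⟨y, hy⟩ : ∃ y, 0 < m x y := by
      by_contra hc
      push Not at hc
      have : mdeg m x = 0 := Finset.sum_eq_zero fun y _ => by have := hc y; omega
      omega
    have hxy1 : m x y = 1 := by have := hle1 x y; omega
    obtain ⟨z, hzy, hxz1⟩ := other_nbr hx (hle1 x) hxy1
    have hxy : x ≠ y := by rintro rfl; rw [hm.2] at hxy1; omega
    have hxz : x ≠ z := by rintro rfl; rw [hm.2] at hxz1; omega
    have hyz0 : m y z = 0 := by
      have := htri x y z hxy hxz hzy.symm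
      omega
    refine ⟨x, y, z, hx, hzy.symm, hxy1, hxz1, hyz0, fun Q hQ2 hQy hQz => ?_⟩
    by_contra hcon
    push Not at hcon
    obtain ⟨r, hr⟩ := ms2_even m hm Q
    have hkQ := hk Q
    have hid := hk (id : K → K)
    have hid2 : ms2 m (id : K → K) = 5 * (e2 m Finset.univ : ℤ) - 12 * (Fintype.card K : ℤ) + 12 := by
      rw [hms]
      have h1 : pt (id : K → K) = Fintype.card K := by
        unfold pt; rw [Finset.image_id, hcard]
      have h2 : x2 m Finset.univ (id : K → K) = e2 m Finset.univ := by
        unfold x2 e2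
        refine Finset.sum_congr rfl fun x _ => Finset.sum_congr rfl fun y _ => ?_
        by_cases h : x = y
        · subst h; simp [hm.2]
        · simp [h]
      rw [h1, h2]
    -- strict inequality for the part of x
    have hc0 : Q x ∈ Finset.univ.image Q := by simp
    have hp0 : 5 * e2 m (Finset.univ.filter (fun w => Q w = Q x)) + 14 ≤
        12 * (Finset.univ.filter (fun w => Q w = Q x)).card := by
      apply sparse'
      · have : ({x, y} : Finset K) ⊆ Finset.univ.filter (fun w => Q w = Q x) := by
          intro w hw; simp only [Finset.mem_insert, Finset.mem_singleton] at hw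
          rcases hw with rfl | rfl <;> simp [hQy]
        calc 2 = ({x, y} : Finset K).card := (Finset.card_pair hxy).symm
          _ ≤ _ := Finset.card_le_card this
      · apply Finset.card_lt_card
        refine ⟨Finset.subset_univ _, fun hZP => ?_⟩
        have : Finset.univ.image Q ⊆ {Q x} := by
          intro d hd
          obtain ⟨w, hw, rfl⟩ := Finset.mem_image.mp hd
          have := hZP hw
          rw [Finset.mem_filter] at this
          simp [this.2]
        have h4 : pt Q ≤ 1 := by
          unfold pt
          calc _ ≤ ({Q x} : Finset K).card := Finset.card_le_card this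
            _ = 1 := Finset.card_singleton _
        omega
    have hrest := Finset.sum_le_sum (s := (Finset.univ.image Q).erase (Q x))
      (fun c hc => part Q hQ2 c (Finset.mem_of_mem_erase hc))
    have hsp := e2_split m Finset.univ Q
    have hcs := card_split Finset.univ Q
    rw [← Finset.add_sum_erase _ _ hc0] at hsp
    rw [← Finset.add_sum_erase _ _ hc0, hcard] at hcs
    rw [Finset.sum_add_distrib, ← Finset.mul_sum, ← Finset.mul_sum,
      Finset.sum_const, smul_eq_mul, Finset.card_erase_of_mem hc0, hpt] at hrest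
    have hmsQ := hms Q
    omega

end Pool.Agent.H70.MG
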