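import Pool.Agent.H52.MG.Basic
import Pool.Agent.H52.MG.Targets

/-!
# Module TEC of the MG project: 3-cuts in 3-edge-connected multigraphs with a link
-/

set_option autoImplicit false
set_option linter.unusedSectionVars false

noncomputable section

open Classical
open Pool.Agent.H52.MG

namespace Pool.Agent.H70.MG

section
variable {K : Type} [Fintype K]

/-- number of edges between `A` and `B` (ordered pairs) -/
def ee (μ : K → K → ℕ) (A B : Finset K) : ℕ := ∑ x ∈ A, ∑ y ∈ B, μ x y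

lemma ee_comm {μ : K → K → ℕ} (hs : ∀ x y, μ x y = μ y x) (A B : Finset K) :
    ee μ A B = ee μ B A := by
  unfold ee
  rw [Finset.sum_comm]
  exact Finset.sum_congr rfl fun x _ => Finset.sum_congr rfl fun y _ => hs y x

lemma ee_left (μ : K → K → ℕ) {A A1 A2 : Finset K} (B : Finset K) (h : A = A1 ∪ A2)
    (hd : Disjoint A1 A2) : ee μ A B = ee μ A1 B + ee μ A2 B := by
  subst h; exact Finset.sum_union hd

lemma ee_right (μ : K → K → ℕ) {B B1 B2 : Finset K} (A : Finset K) (h : B = B1 ∪ B2)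
    (hd : Disjoint B1 B2) : ee μ A B = ee μ A B1 + ee μ A B2 := by
  subst h
  unfold ee
  rw [← Finset.sum_add_distrib]
  exact Finset.sum_congr rfl fun x _ => Finset.sum_union hd

lemma le_ee (μ : K → K → ℕ) {A B : Finset K} {x y : K} (hx : x ∈ A) (hy : y ∈ B) :
    μ x y ≤ ee μ A B := by
  unfold ee
  calc μ x y ≤ ∑ y ∈ B, μ x y := Finset.single_le_sum (f := fun y => μ x y)
        (fun _ _ => Nat.zero_le _) hy
    _ ≤ _ := Finset.single_le_sum (f := fun x => ∑ y ∈ B, μ x y)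
        (fun _ _ => Nat.zero_le _) hx

lemma ee_pos {μ : K → K → ℕ} {A B : Finset K} (h : 0 < ee μ A B) :
    ∃ x ∈ A, ∃ y ∈ B, 0 < μ x y := by
  by_contra hc
  push Not at hc
  have : ee μ A B = 0 := by
    unfold ee
    exact Finset.sum_eq_zero fun x hx => Finset.sum_eq_zero fun y hy => by
      have := hc x hx y hy; omega
  omega

lemma cutI_compl {μ : K → K → ℕ} (hs : ∀ x y, μ x y = μ y x) {Z A : Finset K} (hA : A ⊆ Z) :
    cutI μ Z (Z \ A) = cutI μ Z A := by
  have h : Z \ (Z \ A) = A := Finset.sdiff_sdiff_eq_self hA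
  show ee μ (Z \ A) (Z \ (Z \ A)) = ee μ A (Z \ A)
  rw [h, ee_comm hs]

/-- all cut values in terms of four parts -/
lemma cut4 {μ : K → K → ℕ} {Z A B : Finset K} (hA : A ⊆ Z) (hB : B ⊆ Z) :
    cutI μ Z A = ee μ (A ∩ B) (B \ A) + ee μ (A ∩ B) (Z \ (A ∪ B)) + ee μ (A \ B) (B \ A) +
      ee μ (A \ B) (Z \ (A ∪ B)) ∧
    cutI μ Z (A ∩ B) = ee μ (A ∩ B) (A \ B) + ee μ (A ∩ B) (B \ A) +
      ee μ (A ∩ B) (Z \ (A ∪ B)) ∧
    cutI μ Z (A ∪ B) = ee μ (A ∩ B) (Z \ (A ∪ B)) + ee μ (A \ B) (Z \ (A ∪ B)) +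
      ee μ (B \ A) (Z \ (A ∪ B)) ∧
    cutI μ Z (A \ B) = ee μ (A \ B) (A ∩ B) + ee μ (A \ B) (B \ A) +
      ee μ (A \ B) (Z \ (A ∪ B)) := by
  have dPQ : Disjoint (A ∩ B) (A \ B) := by
    rw [Finset.disjoint_left]; intro x; simp; tauto
  have dRS : Disjoint (B \ A) (Z \ (A ∪ B)) := by
    rw [Finset.disjoint_left]; intro x; simp; tauto
  have dQRS : Disjoint (A \ B) (B \ A ∪ Z \ (A ∪ B)) := by
    rw [Finset.disjoint_left]; intro x; simp; tauto
  have dPRS : Disjoint (A ∩ B) (B \ A ∪ Z \ (A ∪ B)) := by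
    rw [Finset.disjoint_left]; intro x; simp; tauto
  have dPQR : Disjoint (A ∩ B ∪ A \ B) (B \ A) := by
    rw [Finset.disjoint_left]; intro x; simp; tauto
  have eA : A = A ∩ B ∪ A \ B := by ext x; simp; tauto
  have eA' : Z \ A = B \ A ∪ Z \ (A ∪ B) := by
    ext x; have := @hB x; simp only [Finset.mem_sdiff, Finset.mem_union]; tauto
  have eP' : Z \ (A ∩ B) = A \ B ∪ (B \ A ∪ Z \ (A ∪ B)) := by
    ext x; have := @hB x; have := @hA x
    simp only [Finset.mem_sdiff, Finset.mem_union, Finset.mem_inter]; tauto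
  have eQ' : Z \ (A \ B) = A ∩ B ∪ (B \ A ∪ Z \ (A ∪ B)) := by
    ext x; have := @hB x; have := @hA x
    simp only [Finset.mem_sdiff, Finset.mem_union, Finset.mem_inter]; tauto
  have eU : A ∪ B = (A ∩ B ∪ A \ B) ∪ B \ A := by
    ext x
    simp only [Finset.mem_sdiff, Finset.mem_union, Finset.mem_inter]; tauto
  refine ⟨?_, ?_, ?_, ?_⟩
  · show ee μ A (Z \ A) = _
    rw [ee_left μ (Z \ A) eA dPQ, ee_right μ _ eA' dRS, ee_right μ _ eA' dRS]
    ring
  · show ee μ (A ∩ B) (Z \ (A ∩ B)) = _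
    rw [ee_right μ _ eP' dQRS, ee_right μ _ rfl dRS]
    ring
  · show ee μ (A ∪ B) (Z \ (A ∪ B)) = _
    rw [ee_left μ (Z \ (A ∪ B)) eU dPQR, ee_left μ _ rfl dPQ]
  · show ee μ (A \ B) (Z \ (A \ B)) = _
    rw [ee_right μ _ eQ' dPRS, ee_right μ _ rfl dRS]
    ring

lemma submod {μ : K → K → ℕ} (hs : ∀ x y, μ x y = μ y x) {Z A B : Finset K} (hA : A ⊆ Z)
    (hB : B ⊆ Z) : cutI μ Z (A ∩ B) + cutI μ Z (A ∪ B) ≤ cutI μ Z A + cutI μ Z B := by
  obtain ⟨h1, h2, h3, -⟩ := cut4 (μ := μ) hA hB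
  obtain ⟨h4, -, -, -⟩ := cut4 (μ := μ) hB hA
  rw [Finset.inter_comm B A, Finset.union_comm B A, ee_comm hs (B \ A) (A \ B)] at h4
  omega

lemma posimod {μ : K → K → ℕ} (hs : ∀ x y, μ x y = μ y x) {Z A B : Finset K} (hA : A ⊆ Z)
    (hB : B ⊆ Z) : cutI μ Z (A \ B) + cutI μ Z (B \ A) + 2 * ee μ (A ∩ B) (Z \ (A ∪ B)) =
      cutI μ Z A + cutI μ Z B := by
  obtain ⟨h1, -, -, h2⟩ := cut4 (μ := μ) hA hB
  obtain ⟨h3, -, -, h4⟩ := cut4 (μ := μ) hB hA
  rw [Finset.inter_comm B A, Finset.union_comm B A, ee_comm hs (B \ A) (A \ B)] at h3 h4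
  rw [ee_comm hs (A \ B) (A ∩ B)] at h2
  rw [ee_comm hs (B \ A) (A ∩ B)] at h4
  omega

lemma cutI_single {μ : K → K → ℕ} (hd : ∀ x, μ x x = 0) (Z : Finset K) {x : K} (hx : x ∈ Z) :
    cutI μ Z {x} = ∑ y ∈ Z, μ x y := by
  unfold cutI
  rw [Finset.sum_singleton, ← Finset.sum_sdiff (Finset.singleton_subset_iff.mpr hx)]
  simp [hd]

lemma sum_single {μ : K → K → ℕ} (hd : ∀ x, μ x x = 0) {Z A : Finset K} (hA : A ⊆ Z) :
    ∑ x ∈ A, cutI μ Z {x} = cutI μ Z A + ee μ A A := by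
  have h1 : ∑ x ∈ A, cutI μ Z {x} = ee μ A Z :=
    Finset.sum_congr rfl fun x hx => cutI_single hd Z (hA hx)
  have h2 : Z = Z \ A ∪ A := (Finset.sdiff_union_of_subset hA).symm
  rw [h1, ee_right μ A h2 Finset.sdiff_disjoint]
  rfl

lemma mst_symm {m : K → K → ℕ} (hm : MSym m) (f g x y : K) : mst m f g x y = mst m f g y x := by
  unfold mst
  rw [hm.1 x y]
  congr 1
  by_cases h : f ≠ g ∧ ((x = f ∧ y = g) ∨ (x = g ∧ y = f))
  · rw [if_pos h, if_pos]; tauto
  · rw [if_neg h, if_neg]; tauto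

lemma mst_diag {m : K → K → ℕ} (hm : MSym m) (f g x : K) : mst m f g x x = 0 := by
  unfold mst
  rw [hm.2, if_neg]
  rintro ⟨h, h1 | h1⟩
  · exact h (h1.1.symm.trans h1.2)
  · exact h (h1.2.symm.trans h1.1)

lemma mst_comm (m : K → K → ℕ) (f g : K) : mst m f g = mst m g f := by
  funext x y
  unfold mst
  congr 1
  by_cases h : f ≠ g ∧ ((x = f ∧ y = g) ∨ (x = g ∧ y = f))
  · rw [if_pos h, if_pos]
    exact ⟨h.1.symm, h.2.symm⟩
  · rw [if_neg h, if_neg]
    intro k
    exact h ⟨k.1.symm, k.2.symm⟩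

lemma mst_eq {m : K → K → ℕ} {f g x y : K} (h1 : ¬ (x = f ∧ y = g)) (h2 : ¬ (x = g ∧ y = f)) :
    mst m f g x y = m x y := by
  unfold mst
  rw [if_neg, add_zero]
  tauto

lemma mst_link {m : K → K → ℕ} {f g : K} (h : f ≠ g) : mst m f g f g = m f g + 1 := by
  unfold mst
  rw [if_pos ⟨h, Or.inl ⟨rfl, rfl⟩⟩]

/-- the part of the proof after `{f}` is known to be a 3-cut -/
lemma tec_core {m : K → K → ℕ} {Z : Finset K} {f g : K} (hm : MSym m) (hf : f ∈ Z) (hg : g ∈ Z)
    (h3 : ∀ A : Finset K, A ⊆ Z → A.Nonempty → A ≠ Z → 3 ≤ cutI (mst m f g) Z A)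
    (hnA : ∀ x ∈ Z, x ≠ f → x ≠ g → 4 ≤ cutI (mst m f g) Z {x})
    (hnB : ∀ x ∈ Z, ∀ y ∈ Z, 0 < m x y → ∃ B : Finset K, B ⊆ Z ∧ x ∈ B ∧ y ∉ B ∧
      cutI (mst m f g) Z B = 3)
    (hfg : f ≠ g) (hf3 : cutI (mst m f g) Z {f} = 3)
    (hsep : ∀ A : Finset K, A ⊆ Z → A.Nonempty → A ≠ Z → cutI (mst m f g) Z A = 3 →
      (f ∈ A ↔ g ∉ A)) :
    ∃ x₁ ∈ Z, m f x₁ = 2 ∧ f ≠ x₁ ∧ ((cutI (mst m f g) Z {x₁} = 3 ∧ (x₁ = f ∨ x₁ = g)) ∨
      (cutI (mst m f g) Z {x₁} = 4 ∧ x₁ ≠ f ∧ x₁ ≠ g)) := by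
  set μ := mst m f g with hμ
  have hs : ∀ x y, μ x y = μ y x := mst_symm hm f g
  have hd : ∀ x, μ x x = 0 := mst_diag hm f g
  have hlink : 1 ≤ μ f g := by rw [hμ, mst_link hfg]; omega
  -- the family
  let C : Finset K → Prop := fun A => A ⊆ Z ∧ f ∈ A ∧ 2 ≤ A.card ∧
    (A = Z ∨ (cutI μ Z A = 3 ∧ g ∉ A))
  have hZcard : 2 ≤ Z.card := by
    have : ({f, g} : Finset K) ⊆ Z := by
      intro x hx; simp only [Finset.mem_insert, Finset.mem_singleton] at hx
      rcases hx with rfl | rfl <;> assumption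
    calc 2 = ({f, g} : Finset K).card := (Finset.card_pair hfg).symm
      _ ≤ _ := Finset.card_le_card this
  have hCZ : C Z := ⟨subset_rfl, hf, hZcard, Or.inl rfl⟩
  obtain ⟨A, hA, hmin⟩ : ∃ A, C A ∧ ∀ B, C B → B ⊆ A → B = A := by
    have hne : (Finset.univ.filter C).Nonempty := ⟨Z, by simp [hCZ]⟩
    obtain ⟨A, hA, hmin⟩ := Finset.exists_min_image (Finset.univ.filter C) Finset.card hne
    refine ⟨A, (Finset.mem_filter.mp hA).2, fun B hB hBA => ?_⟩
    exact Finset.eq_of_subset_of_card_le hBA (hmin B (by simp [hB]))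
  obtain ⟨hAZ, hfA, hA2, hAc⟩ := hA
  set D := A \ {f} with hD
  have hDZ : D ⊆ Z := (Finset.sdiff_subset).trans hAZ
  have hfD : f ∉ D := by simp [hD]
  have hDne : D.Nonempty := by
    rw [← Finset.card_pos, hD, Finset.card_sdiff_of_subset (Finset.singleton_subset_iff.mpr hfA)]
    simp; omega
  -- no m-edge inside D
  have hnoedge : ∀ x ∈ D, ∀ y ∈ D, m x y = 0 := by
    by_contra hcon
    push Not at hcon
    obtain ⟨x, hx, y, hy, hxy⟩ := hcon
    -- a cut containing f and separating two elements of D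
    obtain ⟨B, hBZ, hfB, x', y', hx', hy', hxB, hyB, hB3⟩ : ∃ B : Finset K, B ⊆ Z ∧ f ∈ B ∧
        ∃ x' y', x' ∈ D ∧ y' ∈ D ∧ x' ∈ B ∧ y' ∉ B ∧ cutI μ Z B = 3 := by
      obtain ⟨B, hBZ, hxB, hyB, hB3⟩ := hnB x (hDZ hx) y (hDZ hy) (by omega)
      by_cases hfB : f ∈ B
      · exact ⟨B, hBZ, hfB, x, y, hx, hy, hxB, hyB, hB3⟩
      · refine ⟨Z \ B, Finset.sdiff_subset, by simp [hf, hfB], y, x, hy, hx,
          by simp [hDZ hy, hyB], by simp [hxB], ?_⟩
        rw [cutI_compl hs hBZ, hB3]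
    have hBne : B ≠ Z := fun h => hyB (h ▸ hDZ hy')
    have hgB : g ∉ B := (hsep B hBZ ⟨f, hfB⟩ hBne hB3).mp hfB
    have hx'f : x' ≠ f := fun h => hfD (h ▸ hx')
    have hB2 : 2 ≤ B.card := by
      have : ({x', f} : Finset K) ⊆ B := by
        intro z hz; simp only [Finset.mem_insert, Finset.mem_singleton] at hz
        rcases hz with rfl | rfl <;> assumption
      calc 2 = ({x', f} : Finset K).card := (Finset.card_pair hx'f).symm
        _ ≤ _ := Finset.card_le_card this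
    have hCB : C B := ⟨hBZ, hfB, hB2, Or.inr ⟨hB3, hgB⟩⟩
    have hy'A : y' ∈ A := (Finset.sdiff_subset) hy'
    rcases hAc with hAeq | ⟨hA3, hgA⟩
    · have := hmin B hCB (hAeq ▸ hBZ)
      exact hyB (this ▸ hy'A)
    · have hpos := posimod hs hAZ hBZ
      have hle : μ f g ≤ ee μ (A ∩ B) (Z \ (A ∪ B)) := by
        apply le_ee
        · simp [hfA, hfB]
        · simp [hg, hgA, hgB]
      have h1 : 3 ≤ cutI μ Z (A \ B) := by
        apply h3 _ ((Finset.sdiff_subset).trans hAZ) ⟨y', by simp [hy'A, hyB]⟩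
        intro h
        have : f ∈ A \ B := h ▸ hf
        simp [hfB] at this
      have h2 : B \ A = ∅ := by
        by_contra hne
        have : 3 ≤ cutI μ Z (B \ A) := by
          apply h3 _ ((Finset.sdiff_subset).trans hBZ) (Finset.nonempty_iff_ne_empty.mpr hne)
          intro h
          have : f ∈ B \ A := h ▸ hf
          simp [hfA] at this
        omega
      have hBA : B ⊆ A := Finset.sdiff_eq_empty_iff_subset.mp h2
      have := hmin B hCB hBA
      exact hyB (this ▸ hy'A)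
  have heeD : ee μ D D = 0 := by
    unfold ee
    refine Finset.sum_eq_zero fun x hx => Finset.sum_eq_zero fun y hy => ?_
    have hxf : x ≠ f := fun h => hfD (by rw [← h]; exact hx)
    have hyf : y ≠ f := fun h => hfD (by rw [← h]; exact hy)
    rw [hμ, mst_eq (fun h => hxf h.1) (fun h => hyf h.2)]
    exact hnoedge x hx y hy
  have hsum : ∑ x ∈ D, cutI μ Z {x} = cutI μ Z D := by
    rw [sum_single hd hDZ, heeD, add_zero]
  have hsingle : ∀ x ∈ Z, 3 ≤ cutI μ Z {x} := by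
    intro x hx
    apply h3 _ (Finset.singleton_subset_iff.mpr hx) (Finset.singleton_nonempty x)
    intro h
    rw [← h] at hZcard
    simp at hZcard
  have hcardD : 3 * D.card ≤ cutI μ Z D := by
    rw [← hsum, mul_comm, ← smul_eq_mul]
    exact Finset.card_nsmul_le_sum D _ 3 fun x hx => hsingle x (hDZ hx)
  have hDpos : 1 ≤ D.card := Finset.card_pos.mpr hDne
  have hAD : A = {f} ∪ D := by
    rw [hD]; exact (Finset.union_sdiff_of_subset (Finset.singleton_subset_iff.mpr hfA)).symm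
  have hfDd : Disjoint ({f} : Finset K) D := by simp [hfD]
  rcases hAc with hAeq | ⟨hA3, hgA⟩
  · -- A = Z
    have hDeq : cutI μ Z D = 3 := by
      have : D = Z \ {f} := by rw [hD, hAeq]
      rw [this, cutI_compl hs (Finset.singleton_subset_iff.mpr hf), hf3]
    have hD1 : D.card = 1 := by omega
    obtain ⟨z, hz⟩ := Finset.card_eq_one.mp hD1
    have hgD : g ∈ D := by
      rw [hD, hAeq]; simp [hg, hfg.symm]
    have hzg : z = g := by
      rw [hz] at hgD
      exact (Finset.mem_singleton.mp hgD).symm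
    subst hzg
    refine ⟨z, hg, ?_, hfg, Or.inl ⟨?_, Or.inr rfl⟩⟩
    · have h5 : cutI μ Z {f} = μ f z := by
        have : Z \ {f} = {z} := by rw [← hAeq, ← hD, hz]
        unfold cutI
        rw [this]; simp
      rw [hf3] at h5
      rw [hμ, mst_link hfg] at h5
      omega
    · rw [← hz, hDeq]
  · -- A ≠ Z
    have hgD : g ∉ D := fun h => hgA (Finset.sdiff_subset h)
    have hgZA : g ∈ Z \ A := by simp [hg, hgA]
    -- Z \ {f} = D ∪ (Z \ A)
    have e1 : Z \ {f} = D ∪ Z \ A := by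
      ext x
      have := @hAZ x
      simp only [hD, Finset.mem_sdiff, Finset.mem_union, Finset.mem_singleton]
      by_cases hxf : x = f
      · subst hxf; simp [hfA]
      · simp only [hxf, not_false_eq_true, and_true]; tauto
    have dD : Disjoint D (Z \ A) := by
      rw [Finset.disjoint_left]
      intro x hx hx2
      exact (Finset.mem_sdiff.mp hx2).2 (Finset.sdiff_subset hx)
    have c1 : ee μ {f} D + ee μ {f} (Z \ A) = 3 := by
      rw [← hf3]
      show _ = ee μ {f} (Z \ {f})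
      rw [ee_right μ _ e1 dD]
    have c2 : ee μ {f} (Z \ A) + ee μ D (Z \ A) = 3 := by
      rw [← hA3]
      show _ = ee μ A (Z \ A)
      rw [ee_left μ (Z \ A) hAD hfDd]
    have c3 : μ f g ≤ ee μ {f} (Z \ A) := le_ee μ (by simp) hgZA
    have e2 : Z \ D = {f} ∪ Z \ A := by
      ext x
      have := @hAZ x
      simp only [hD, Finset.mem_sdiff, Finset.mem_union, Finset.mem_singleton]
      by_cases hxf : x = f
      · subst hxf; simp [hf]
      · simp only [hxf, not_false_eq_true, and_true, false_or]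
    have dD2 : Disjoint ({f} : Finset K) (Z \ A) := by simp [hfA]
    have c4 : cutI μ Z D = ee μ {f} D + ee μ D (Z \ A) := by
      show ee μ D (Z \ D) = _
      rw [ee_right μ _ e2 dD2, ee_comm hs D {f}]
    have hD1 : D.card = 1 := by omega
    obtain ⟨z, hz⟩ := Finset.card_eq_one.mp hD1
    have hzD : z ∈ D := by rw [hz]; simp
    have hzf : z ≠ f := fun h => hfD (h ▸ hzD)
    have hzg : z ≠ g := fun h => hgD (h ▸ hzD)
    have h4 : 4 ≤ cutI μ Z D := by rw [hz]; exact hnA z (hDZ hzD) hzf hzg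
    have h6 : ee μ {f} D = μ f z := by rw [hz]; unfold ee; simp
    refine ⟨z, hDZ hzD, ?_, hzf.symm, Or.inr ⟨?_, hzf, hzg⟩⟩
    · have : μ f z = m f z := by
        rw [hμ]
        exact mst_eq (fun h => hzg h.2) (fun h => hfg h.1)
      omega
    · rw [← hz]; omega

end

theorem tec : T_TEC := by
  intro K _ m Z f g hm hf hg hZ2 h3
  by_cases hnA' : ∃ x ∈ Z, x ≠ f ∧ x ≠ g ∧ cutI (mst m f g) Z {x} = 3
  · exact Or.inl hnA'
  right
  by_cases hnB' : ∃ x ∈ Z, ∃ y ∈ Z, 0 < m x y ∧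
    ∀ A : Finset K, A ⊆ Z → x ∈ A → y ∉ A → 4 ≤ cutI (mst m f g) Z A
  · exact Or.inl hnB'
  right
  set μ := mst m f g with hμ
  have hs : ∀ x y, μ x y = μ y x := mst_symm hm f g
  have hd : ∀ x, μ x x = 0 := mst_diag hm f g
  have hsingle : ∀ x ∈ Z, 3 ≤ cutI μ Z {x} := by
    intro x hx
    apply h3 _ (Finset.singleton_subset_iff.mpr hx) (Finset.singleton_nonempty x)
    intro h
    rw [← h] at hZ2
    simp at hZ2
  have hnA : ∀ x ∈ Z, x ≠ f → x ≠ g → 4 ≤ cutI μ Z {x} := by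
    intro x hx h1 h2
    have h4 := hsingle x hx
    have h5 : cutI μ Z {x} ≠ 3 := fun h => hnA' ⟨x, hx, h1, h2, h⟩
    omega
  have hnB : ∀ x ∈ Z, ∀ y ∈ Z, 0 < m x y → ∃ B : Finset K, B ⊆ Z ∧ x ∈ B ∧ y ∉ B ∧
      cutI μ Z B = 3 := by
    intro x hx y hy hxy
    by_contra hcon
    push Not at hcon
    apply hnB'
    refine ⟨x, hx, y, hy, hxy, fun A hA hxA hyA => ?_⟩
    have h4 := h3 A hA ⟨x, hxA⟩ (fun h => hyA (h ▸ hy))
    have h5 := hcon A hA hxA hyA
    omega
  -- every member of the family contains a singleton which is a 3-cut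
  have hmin : ∀ n : ℕ, ∀ A : Finset K, A.card ≤ n → A ⊆ Z → A.Nonempty → A ≠ Z →
      cutI μ Z A = 3 → ¬ (f ∈ A ∧ g ∈ A) → f ≠ g ∧ ((f ∈ A ∧ cutI μ Z {f} = 3) ∨
        (g ∈ A ∧ cutI μ Z {g} = 3)) := by
    intro n
    induction n with
    | zero =>
      intro A hAn hAZ hA0
      have := Finset.card_pos.mpr hA0
      omega
    | succ n ih =>
      intro A hAn hAZ hA0 hAne hA3 hfgA
      have hpos := Finset.card_pos.mpr hA0
      by_cases h1 : A.card = 1
      · obtain ⟨x, rfl⟩ := Finset.card_eq_one.mp h1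
        have hx : x ∈ Z := hAZ (by simp)
        have hxfg : x = f ∨ x = g := by
          by_contra hc
          push Not at hc
          exact hnA' ⟨x, hx, hc.1, hc.2, hA3⟩
        have hne : f ≠ g := by
          intro h
          apply hfgA
          rcases hxfg with h1 | h1 <;> simp [h1, h]
        rcases hxfg with h1 | h1
        · subst h1; exact ⟨hne, Or.inl ⟨by simp, hA3⟩⟩
        · subst h1; exact ⟨hne, Or.inr ⟨by simp, hA3⟩⟩
      · -- there is an m-edge inside A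
        have hsum := sum_single hd hAZ
        have hge : 3 * A.card ≤ ∑ x ∈ A, cutI μ Z {x} := by
          rw [mul_comm, ← smul_eq_mul]
          exact Finset.card_nsmul_le_sum A _ 3 fun x hx => hsingle x (hAZ hx)
        have hee : 0 < ee μ A A := by omega
        obtain ⟨x, hx, y, hy, hxy⟩ := ee_pos hee
        have hxy' : 0 < m x y := by
          rw [hμ, mst_eq] at hxy
          · exact hxy
          · rintro ⟨rfl, rfl⟩; exact hfgA ⟨hx, hy⟩
          · rintro ⟨rfl, rfl⟩; exact hfgA ⟨hy, hx⟩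
        obtain ⟨B, hBZ, hxB, hyB, hB3⟩ := hnB x (hAZ hx) y (hAZ hy) hxy'
        -- a smaller member of the family
        obtain ⟨A', hA'A, hA'lt, hA'0, hA'3⟩ : ∃ A' : Finset K, A' ⊆ A ∧ A'.card < A.card ∧
            A'.Nonempty ∧ cutI μ Z A' = 3 := by
          by_cases hU : A ∪ B = Z
          · have hsub : Z \ B ⊆ A := by
              intro z hz
              rw [← hU] at hz
              simp only [Finset.mem_sdiff, Finset.mem_union] at hz
              tauto
            refine ⟨Z \ B, hsub, ?_, ⟨y, by simp [hAZ hy, hyB]⟩, ?_⟩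
            · apply Finset.card_lt_card
              refine ⟨hsub, fun h => ?_⟩
              have := h hx
              simp [hxB] at this
            · rw [cutI_compl hs hBZ, hB3]
          · have hsub := submod hs hAZ hBZ
            have h4 : 3 ≤ cutI μ Z (A ∪ B) :=
              h3 _ (Finset.union_subset hAZ hBZ) ⟨x, by simp [hx]⟩ hU
            have h5 : 3 ≤ cutI μ Z (A ∩ B) := by
              apply h3 _ ((Finset.inter_subset_left).trans hAZ) ⟨x, by simp [hx, hxB]⟩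
              intro h
              have : y ∈ A ∩ B := h ▸ hAZ hy
              simp [hyB] at this
            refine ⟨A ∩ B, Finset.inter_subset_left, ?_, ⟨x, by simp [hx, hxB]⟩, by omega⟩
            apply Finset.card_lt_card
            refine ⟨Finset.inter_subset_left, fun h => ?_⟩
            have := h hy
            simp [hyB] at this
        obtain ⟨hne, h6⟩ := ih A' (by omega) (hA'A.trans hAZ) hA'0
          (fun h => by
            have : Z.card ≤ A.card := by rw [← h]; exact hA'lt.le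
            exact hAne (Finset.eq_of_subset_of_card_le hAZ this)) hA'3
          (fun h => hfgA ⟨hA'A h.1, hA'A h.2⟩)
        refine ⟨hne, ?_⟩
        rcases h6 with h6 | h6
        · exact Or.inl ⟨hA'A h6.1, h6.2⟩
        · exact Or.inr ⟨hA'A h6.1, h6.2⟩
  have hfam : ∀ A : Finset K, A ⊆ Z → A.Nonempty → A ≠ Z → cutI μ Z A = 3 →
      ¬ (f ∈ A ∧ g ∈ A) → f ≠ g ∧ ((f ∈ A ∧ cutI μ Z {f} = 3) ∨
        (g ∈ A ∧ cutI μ Z {g} = 3)) := fun A => hmin A.card A le_rfl
  have hsep : ∀ A : Finset K, A ⊆ Z → A.Nonempty → A ≠ Z → cutI μ Z A = 3 →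
      (f ∈ A ↔ g ∉ A) := by
    intro A hAZ hA0 hAne hA3
    by_cases hb : f ∈ A ∧ g ∈ A
    · exfalso
      have h7 := hfam (Z \ A) Finset.sdiff_subset
        (by
          rw [Finset.sdiff_nonempty]
          intro h
          exact hAne (Finset.Subset.antisymm hAZ h))
        (by
          intro h
          have : f ∈ Z \ A := by rw [h]; exact hf
          simp [hb.1] at this)
        (by rw [cutI_compl hs hAZ, hA3])
        (by simp [hb.1])
      simp [hb.1, hb.2] at h7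
    · have h7 := hfam A hAZ hA0 hAne hA3 hb
      tauto
  -- the family is nonempty
  have hex : f ≠ g ∧ (cutI μ Z {f} = 3 ∨ cutI μ Z {g} = 3) := by
    have h8 := hsingle f hf
    rw [cutI_single hd Z hf] at h8
    obtain ⟨y, hy, hfy⟩ : ∃ y ∈ Z, 0 < m f y := by
      by_contra hc
      push Not at hc
      have : ∑ y ∈ Z, μ f y ≤ ∑ y ∈ Z, if y = g then 1 else 0 := by
        apply Finset.sum_le_sum
        intro y hy
        have h9 := hc y hy
        rw [hμ]
        unfold mst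
        by_cases hyg : y = g
        · rw [if_pos hyg]
          split_ifs <;> omega
        · rw [if_neg hyg, if_neg, add_zero]
          · omega
          · rintro ⟨h10, h11 | h11⟩
            · exact hyg h11.2
            · exact h10 h11.1
      have h12 : (∑ y ∈ Z, if y = g then 1 else 0) ≤ 1 := by
        rw [Finset.sum_ite_eq']
        split_ifs <;> omega
      omega
    obtain ⟨B, hBZ, hfB, hyB, hB3⟩ := hnB f hf y hy hfy
    have h9 := hfam (Z \ B) Finset.sdiff_subset ⟨y, by simp [hy, hyB]⟩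
      (by
        intro h
        have : f ∈ Z \ B := by rw [h]; exact hf
        simp [hfB] at this)
      (by rw [cutI_compl hs hBZ, hB3])
      (by simp [hfB])
    refine ⟨h9.1, ?_⟩
    rcases h9.2 with h10 | h10
    · exact Or.inl h10.2
    · exact Or.inr h10.2
  obtain ⟨hfg, hor⟩ := hex
  refine ⟨hfg, ?_⟩
  rcases hor with hf3 | hg3
  · obtain ⟨x₁, hx₁, h1, h2, h4⟩ := tec_core hm hf hg h3 hnA hnB hfg hf3 hsep
    exact ⟨f, hf, x₁, hx₁, Or.inl rfl, hf3, h1, h2, h4⟩
  · have hc : mst m g f = μ := by rw [hμ, mst_comm]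
    obtain ⟨x₁, hx₁, h1, h2, h4⟩ := tec_core (f := g) (g := f) hm hg hf
      (by rw [hc]; exact h3) (by rw [hc]; exact fun x hx h1 h2 => hnA x hx h2 h1)
      (by rw [hc]; exact hnB) hfg.symm (by rw [hc]; exact hg3)
      (by
        rw [hc]
        intro A h1 h2 h3 h4
        have := hsep A h1 h2 h3 h4
        tauto)
    rw [hc] at h4
    refine ⟨g, hg, x₁, hx₁, Or.inr rfl, hg3, h1, h2, ?_⟩
    rcases h4 with h4 | h4
    · exact Or.inl ⟨h4.1, h4.2.symm⟩
    · exact Or.inr ⟨h4.1, h4.2.2, h4.2.1⟩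

end Pool.Agent.H70.MG
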